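import Pool.Agent.P.MP_460c01_lc.DgLow

open Pool.Agent.P.MP_460c01_lc

namespace Pool.Agent.Results.MP_460c01_lc.DagSize

theorem result (m n₁ n₂ : ℕ) (hm : 1 ≤ m) (h₁ : 1 ≤ n₁) (h₂ : 1 ≤ n₂) :
    ∃ N, IsLeast {N | TestSize m n₁ n₂ N} N ∧
      m * (2 ^ max n₁ n₂ + min n₁ n₂ * 2 ^ min n₁ n₂) ≤ 28 * N ∧
      N ≤ 4 * m * (2 ^ max n₁ n₂ + min n₁ n₂ * 2 ^ min n₁ n₂) :=
  Dg.dag_order m n₁ n₂ hm h₁ h₂

/-- The set of subtrees is finite, and the height is at most the number of subtrees (`ht` is the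
height, or any function that grows by at most one from the children to the node). -/
theorem height_le_subtrees {A : Type} {rA : A → ℕ} (ht : RTree A rA → ℕ)
    (h : ∀ (a : A) (f : Fin (rA a) → RTree A rA) (n : ℕ), (∀ i, ht (f i) ≤ n) →
      ht (WType.mk a f) ≤ n + 1) (s : RTree A rA) :
    (subtrees s).Finite ∧ ht s ≤ (subtrees s).ncard :=
  ⟨Dg.sub_finite s, (Dg.ht_le ht h s).trans (Dg.depth_le_card s)⟩

/-- The question as posed (transducers without look-ahead, all input trees, height `ht`). -/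
theorem posed : ∃ H : ℕ → ℕ → ℕ, ∀ (n₁ n₂ : ℕ) (A : Type) [Finite A] (rA : A → ℕ) (B : Type)
    [Finite B] (rB : B → ℕ) (M₁ : DT A rA B rB (Fin n₁)) (M₂ : DT A rA B rB (Fin n₂))
    (ht : RTree A rA → ℕ),
    (∀ (a : A) (f : Fin (rA a) → RTree A rA) (n : ℕ), (∀ i, ht (f i) ≤ n) →
      ht (WType.mk a f) ≤ n + 1) →
    (∀ s : RTree A rA, ht s ≤ H n₁ n₂ → M₁.run s M₁.init = M₂.run s M₂.init) →
    ∀ s : RTree A rA, M₁.run s M₁.init = M₂.run s M₂.init := by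
  have : ∀ n₁ n₂, ∃ h, Good n₁ n₂ h := by
    intro n₁ n₂
    rcases Nat.eq_zero_or_pos n₁ with rfl | h₁
    · exact ⟨0, fun _ _ _ _ _ _ M _ => M.init.elim0⟩
    rcases Nat.eq_zero_or_pos n₂ with rfl | h₂
    · exact ⟨0, fun _ _ _ _ _ _ _ M => M.init.elim0⟩
    obtain ⟨N, h3, -⟩ := result 1 n₁ n₂ le_rfl h₁ h₂
    exact ⟨N, Dg.good_of_one h3.1⟩
  choose H hH using this
  exact ⟨H, fun n₁ n₂ A _ rA B _ rB M₁ M₂ ht h hag =>
    hH n₁ n₂ A rA B rB M₁ M₂ fun s hs => hag s ((Dg.ht_le ht h s).trans hs)⟩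

/-- Finite test sets: a recognizable language has, for given numbers of states, one finite
subset that tests all pairs of transducers, whatever the output alphabet and the rules. -/
theorem test_set {A : Type} [Finite A] {rA : A → ℕ} {m : ℕ}
    (δ : (a : A) → (Fin (rA a) → Fin m) → Fin m) (F : Set (Fin m)) (n₁ n₂ : ℕ) :
    ∃ R₀ : Set (RTree A rA), R₀.Finite ∧ (∀ s ∈ R₀, laState δ s ∈ F) ∧
      ∀ (B : Type) (rB : B → ℕ) (M₁ : DTR A rA B rB (Fin n₁) (Fin m))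
        (M₂ : DTR A rA B rB (Fin n₂) (Fin m)),
        (∀ s ∈ R₀, M₁.run δ s M₁.init = M₂.run δ s M₂.init) →
        ∀ s : RTree A rA, laState δ s ∈ F → M₁.run δ s M₁.init = M₂.run δ s M₂.init :=
  ⟨{s | laState δ s ∈ F ∧
      (subtrees s).ncard ≤ 4 * m * (2 ^ max n₁ n₂ + min n₁ n₂ * 2 ^ min n₁ n₂)},
    (Dg.finite_depth _).subset fun s hs => (Dg.depth_le_card s).trans hs.2,
    fun _ hs => hs.1,
    fun _ _ M₁ M₂ h => Dg.dag_bound δ F M₁ M₂ fun s h1 h2 => h s ⟨h1, h2⟩⟩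

end Pool.Agent.Results.MP_460c01_lc.DagSize
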