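import Pool.Agent.P.MP_460c01_lc.Sharp

open Pool.Agent.P.MP_460c01_lc

namespace Pool.Agent.Results.MP_460c01_lc.SharpHeight

theorem result (n₁ n₂ : ℕ) (h₁ : 1 ≤ n₁) (h₂ : 1 ≤ n₂) :
    ∃ h, IsLeast {H | Good n₁ n₂ H} h ∧
      2 ^ max n₁ n₂ + min n₁ n₂ * 2 ^ min n₁ n₂ ≤ 14 * h ∧
      h ≤ 4 * (2 ^ max n₁ n₂ + min n₁ n₂ * 2 ^ min n₁ n₂) :=
  sharp_order n₁ n₂ h₁ h₂

/-- The question as posed. -/
theorem posed : ∃ H : ℕ → ℕ → ℕ, ∀ n₁ n₂, Good n₁ n₂ (H n₁ n₂) := by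
  have : ∀ n₁ n₂, ∃ h, Good n₁ n₂ h := by
    intro n₁ n₂
    rcases Nat.eq_zero_or_pos n₁ with rfl | h₁
    · exact ⟨0, fun _ _ _ _ _ _ M _ => M.init.elim0⟩
    rcases Nat.eq_zero_or_pos n₂ with rfl | h₂
    · exact ⟨0, fun _ _ _ _ _ _ _ M => M.init.elim0⟩
    obtain ⟨h, h3, -⟩ := result n₁ n₂ h₁ h₂
    exact ⟨h, h3.1⟩
  choose H hH using this
  exact ⟨H, hH⟩

end Pool.Agent.Results.MP_460c01_lc.SharpHeight
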